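import Pool.Agent.Q282.OI.Stm

/-! JOB OI-ISO3 of project OI. -/

set_option autoImplicit false

open Matrix Polynomial

namespace Pool.Agent.Q278.OI.ISO3

variable {ℓ : ℕ} [hp : Fact ℓ.Prime]

theorem toZMod_eq_zero (x : ℤ_[ℓ]) : PadicInt.toZMod x = 0 ↔ ‖x‖ < 1 := by
  rw [← PadicInt.mem_nonunits, ← IsLocalRing.mem_maximalIdeal, ← PadicInt.ker_toZMod,
    RingHom.mem_ker]

theorem norm_eq_one_of (x : ℤ_[ℓ]) (h : PadicInt.toZMod x ≠ 0) : ‖x‖ = 1 := by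
  have h1 := PadicInt.norm_le_one x
  have h2 : ¬ ‖x‖ < 1 := fun h3 => h ((toZMod_eq_zero x).2 h3)
  linarith [not_lt.1 h2]

theorem step (h2 : ℓ ≠ 2) (a0 a1 a2 : ℤ_[ℓ]) (ha0 : ‖a0‖ = 1) (a b : ZMod ℓ) (ha : a ≠ 0)
    (h : PadicInt.toZMod a0 * a ^ 2 + PadicInt.toZMod a1 * b ^ 2 + PadicInt.toZMod a2 = 0) :
    ∃ z w : ℤ_[ℓ], a0 * z ^ 2 + a1 * w ^ 2 + a2 = 0 := by
  haveI : NeZero ℓ := ⟨hp.out.ne_zero⟩
  set A : ℤ_[ℓ] := (a.val : ℤ_[ℓ]) with hA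
  set B : ℤ_[ℓ] := (b.val : ℤ_[ℓ]) with hB
  have hA' : PadicInt.toZMod A = a := by rw [hA, map_natCast]; simp
  have hB' : PadicInt.toZMod B = b := by rw [hB, map_natCast]; simp
  obtain ⟨c, hc⟩ : ∃ c, c = a1 * B ^ 2 + a2 := ⟨_, rfl⟩
  set F : ℤ_[ℓ][X] := C a0 * X ^ 2 + C c with hF
  have e1 : F.aeval A = a0 * A ^ 2 + (a1 * B ^ 2 + a2) := by simp [hF, hc]
  have e2 : F.derivative.aeval A = 2 * a0 * A := by
    simp [hF]; ring
  have n1 : ‖F.aeval A‖ < 1 := by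
    rw [← toZMod_eq_zero, e1]
    simp only [map_add, map_mul, map_pow, hA', hB']
    rw [← add_assoc]
    exact h
  have n2 : ‖F.derivative.aeval A‖ = 1 := by
    apply norm_eq_one_of
    rw [e2]
    simp only [map_mul, hA']
    have q1 : PadicInt.toZMod a0 ≠ 0 := by
      intro h0
      have := (toZMod_eq_zero a0).1 h0
      linarith
    have q2 : (PadicInt.toZMod (2 : ℤ_[ℓ]) : ZMod ℓ) ≠ 0 := by
      have : (PadicInt.toZMod (2 : ℤ_[ℓ]) : ZMod ℓ) = ((2 : ℕ) : ZMod ℓ) := by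
        rw [map_ofNat]; norm_num
      rw [this, Ne, ZMod.natCast_eq_zero_iff]
      intro hd
      have := (Nat.prime_dvd_prime_iff_eq hp.out Nat.prime_two).1 hd
      exact h2 this
    exact mul_ne_zero (mul_ne_zero q2 q1) ha
  obtain ⟨z, hz, -⟩ := hensels_lemma (F := F) (a := A) (by rw [n2]; simpa using n1)
  refine ⟨z, B, ?_⟩
  have : F.aeval z = a0 * z ^ 2 + (a1 * B ^ 2 + a2) := by simp [hF, hc]
  rw [this] at hz
  rw [add_assoc]
  exact hz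

theorem t : Pool.Agent.Q282.OI.S_ISO3 := by
  intro ℓ hp h2 u hu
  haveI : NeZero ℓ := ⟨hp.out.ne_zero⟩
  set a : Fin 3 → ℤ_[ℓ] := fun i => ⟨u i, (hu i).le⟩ with ha
  have hn : ∀ i, ‖a i‖ = 1 := fun i => hu i
  have hnz : ∀ i, PadicInt.toZMod (a i) ≠ 0 := by
    intro i h0
    have := (toZMod_eq_zero (a i)).1 h0
    linarith [hn i]
  have hodd : Fintype.card (ZMod ℓ) % 2 = 1 := by
    rw [ZMod.card]
    exact (hp.out.eq_two_or_odd).resolve_left h2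
  obtain ⟨x, y, hxy⟩ := FiniteField.exists_root_sum_quadratic
    (f := C (PadicInt.toZMod (a 0)) * X ^ 2)
    (g := C (PadicInt.toZMod (a 1)) * X ^ 2 + C (PadicInt.toZMod (a 2)))
    (by
      rw [degree_C_mul_X_pow 2 (hnz 0)]; rfl)
    (by
      rw [degree_add_C, degree_C_mul_X_pow 2 (hnz 1)]
      · rfl
      · rw [degree_C_mul_X_pow 2 (hnz 1)]; norm_num) hodd
  simp only [eval_add, eval_mul, eval_C, eval_pow, eval_X] at hxy
  by_cases hx : x = 0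
  · have hy : y ≠ 0 := by
      intro hy
      rw [hx, hy] at hxy
      simp at hxy
      exact hnz 2 hxy
    obtain ⟨z, w, hzw⟩ := step h2 (a 1) (a 0) (a 2) (hn 1) y x hy (by linear_combination hxy)
    refine ⟨![(w : ℚ_[ℓ]), (z : ℚ_[ℓ]), 1], ?_, ?_⟩
    · intro h0
      have := congrFun h0 2
      simp at this
    · have h3 := congrArg (fun t : ℤ_[ℓ] => (t : ℚ_[ℓ])) hzw
      push_cast at h3
      simp only [Fin.sum_univ_three]
      simp only [Matrix.cons_val_zero, Matrix.cons_val_one, Matrix.cons_val_two]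
      have e0 : ((a 0 : ℤ_[ℓ]) : ℚ_[ℓ]) = u 0 := rfl
      have e1 : ((a 1 : ℤ_[ℓ]) : ℚ_[ℓ]) = u 1 := rfl
      have e2 : ((a 2 : ℤ_[ℓ]) : ℚ_[ℓ]) = u 2 := rfl
      rw [e0, e1, e2] at h3
      simp
      linear_combination h3
  · obtain ⟨z, w, hzw⟩ := step h2 (a 0) (a 1) (a 2) (hn 0) x y hx (by linear_combination hxy)
    refine ⟨![(z : ℚ_[ℓ]), (w : ℚ_[ℓ]), 1], ?_, ?_⟩
    · intro h0
      have := congrFun h0 2
      simp at this
    · have h3 := congrArg (fun t : ℤ_[ℓ] => (t : ℚ_[ℓ])) hzw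
      push_cast at h3
      simp only [Fin.sum_univ_three]
      simp only [Matrix.cons_val_zero, Matrix.cons_val_one, Matrix.cons_val_two]
      have e0 : ((a 0 : ℤ_[ℓ]) : ℚ_[ℓ]) = u 0 := rfl
      have e1 : ((a 1 : ℤ_[ℓ]) : ℚ_[ℓ]) = u 1 := rfl
      have e2 : ((a 2 : ℤ_[ℓ]) : ℚ_[ℓ]) = u 2 := rfl
      rw [e0, e1, e2] at h3
      simp
      linear_combination h3

end Pool.Agent.Q278.OI.ISO3
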