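import Pool.Agent.Q278.OI.ISO3

/-! JOB OI-TERN of project OI. -/

set_option autoImplicit false

open Matrix Polynomial

namespace Pool.Agent.Q278.OI.TERN

variable {F : Type} [Field F]

/-- the bilinear form with the matrix `diagonal d` -/
def bf (d x y : Fin 3 → F) : F := ∑ i, d i * x i * y i

theorem gram (d : Fin 3 → F) (v : Fin 3 → Fin 3 → F) (d' : Fin 3 → F) (hd' : ∀ i, d' i ≠ 0)
    (h : ∀ i j, bf d (v i) (v j) = if i = j then d' i else 0) :
    ∃ C D : Matrix (Fin 3) (Fin 3) F, C * D = 1 ∧ D * C = 1 ∧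
      Cᵀ * diagonal d * C = diagonal d' := by
  set C : Matrix (Fin 3) (Fin 3) F := Matrix.of (fun a i => v i a) with hC
  have e : Cᵀ * diagonal d * C = diagonal d' := by
    ext i j
    rw [Matrix.mul_apply]
    have : ∀ a, (Cᵀ * diagonal d) i a * C a j = d a * v i a * v j a := by
      intro a
      rw [Matrix.mul_diagonal]
      simp only [hC, Matrix.transpose_apply, Matrix.of_apply]
      ring
    rw [Finset.sum_congr rfl (fun a _ => this a)]
    have := h i j
    unfold bf at this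
    rw [this, Matrix.diagonal_apply]
  have hdet : IsUnit C.det := by
    rw [isUnit_iff_ne_zero]
    intro h0
    have h1 := congrArg Matrix.det e
    rw [Matrix.det_mul, Matrix.det_mul, h0, mul_zero, Matrix.det_diagonal] at h1
    exact (Finset.prod_ne_zero_iff.2 fun i _ => hd' i) h1.symm
  exact ⟨C, C⁻¹, Matrix.mul_nonsing_inv C hdet, Matrix.nonsing_inv_mul C hdet, e⟩

variable {ℓ : ℕ} [hp : Fact ℓ.Prime]

theorem pne : ((ℓ : ℚ_[ℓ])) ≠ 0 := by
  have := hp.out.ne_zero
  exact_mod_cast this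

/-- If there are two entries with a product of odd valuation, use a permutation of the basis. -/
theorem case1 (d : Fin 3 → ℚ_[ℓ]) (hd : ∀ i, d i ≠ 0) (σ : Equiv.Perm (Fin 3))
    (h : Odd (Padic.valuation (d (σ 0) * d (σ 1)))) :
    ∃ (C D : Matrix (Fin 3) (Fin 3) ℚ_[ℓ]) (d' : Fin 3 → ℚ_[ℓ]), C * D = 1 ∧ D * C = 1 ∧
    (∀ i, d' i ≠ 0) ∧ Cᵀ * diagonal d * C = diagonal d' ∧ Odd (Padic.valuation (d' 0 * d' 1)) := by
  obtain ⟨C, D, h1, h2, h3⟩ := gram d (fun i => Pi.single (σ i) 1) (fun i => d (σ i))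
    (fun i => hd _) (by
      intro i j
      unfold bf
      by_cases hij : i = j
      · subst hij
        rw [Finset.sum_eq_single (σ i)]
        · simp
        · intro b _ hb
          simp [Pi.single_eq_of_ne hb]
        · intro hb
          exact absurd (Finset.mem_univ _) hb
      · rw [if_neg hij]
        apply Finset.sum_eq_zero
        intro b _
        by_cases hb : b = σ i
        · have hb' : b ≠ σ j := by
            rw [hb]
            intro h'
            exact hij (σ.injective h')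
          simp [Pi.single_eq_of_ne hb']
        · simp [Pi.single_eq_of_ne hb])
  exact ⟨C, D, fun i => d (σ i), h1, h2, fun i => hd _, h3, h⟩

/-- An isotropic vector. -/
theorem case2 (h2 : ℓ ≠ 2) (d : Fin 3 → ℚ_[ℓ]) (hd : ∀ i, d i ≠ 0) (w : Fin 3 → ℚ_[ℓ]) (hw : w ≠ 0)
    (hiso : ∑ i, d i * w i ^ 2 = 0) :
    ∃ (C D : Matrix (Fin 3) (Fin 3) ℚ_[ℓ]) (d' : Fin 3 → ℚ_[ℓ]), C * D = 1 ∧ D * C = 1 ∧
    (∀ i, d' i ≠ 0) ∧ Cᵀ * diagonal d * C = diagonal d' ∧ Odd (Padic.valuation (d' 0 * d' 1)) := by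
  obtain ⟨i₀, hi₀⟩ := Function.ne_iff.1 hw
  have hi₀' : w i₀ ≠ 0 := hi₀
  set c : ℚ_[ℓ] := 1 / (d i₀ * w i₀) with hc
  set b : ℚ_[ℓ] := d i₀ * c ^ 2 / 2 with hb
  set f : Fin 3 → ℚ_[ℓ] := fun i => (if i = i₀ then c else 0) - b * w i with hf
  have hww : bf d w w = 0 := by
    rw [← hiso]
    unfold bf
    refine Finset.sum_congr rfl fun i _ => by ring
  have hcw : d i₀ * w i₀ * c = 1 := by
    rw [hc]
    field_simp [hd i₀, hi₀']
  have hs : ∀ y : Fin 3 → ℚ_[ℓ], ∑ i, d i * y i * (if i = i₀ then c else 0) = d i₀ * y i₀ * c := by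
    intro y
    rw [Finset.sum_eq_single i₀]
    · simp
    · intro j _ hj
      simp [hj]
    · intro h
      exact absurd (Finset.mem_univ _) h
  have hwf : bf d w f = 1 := by
    have : bf d w f = ∑ i, d i * w i * (if i = i₀ then c else 0) - b * bf d w w := by
      unfold bf
      rw [Finset.mul_sum, ← Finset.sum_sub_distrib]
      refine Finset.sum_congr rfl fun i _ => ?_
      rw [hf]
      ring
    rw [this, hww, hs, hcw]
    ring
  have hff : bf d f f = 0 := by
    have : bf d f f = ∑ i, d i * f i * (if i = i₀ then c else 0) - b * bf d w f := by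
      unfold bf
      rw [Finset.mul_sum, ← Finset.sum_sub_distrib]
      refine Finset.sum_congr rfl fun i _ => ?_
      simp only [hf]
      ring
    rw [this, hwf, hs]
    simp only [hf, if_true]
    have h2' : (2 : ℚ_[ℓ]) ≠ 0 := two_ne_zero
    have hb2 : 2 * b = d i₀ * c ^ 2 := by rw [hb]; field_simp
    linear_combination -hb2 - b * hcw
  -- the third vector
  set g : Fin 3 → ℚ_[ℓ] := ![(w 1 * f 2 - w 2 * f 1) / d 0, (w 2 * f 0 - w 0 * f 2) / d 1,
    (w 0 * f 1 - w 1 * f 0) / d 2] with hg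
  have g0 : d 0 * g 0 = w 1 * f 2 - w 2 * f 1 := by
    rw [hg]; simp; field_simp [hd 0]
  have g1 : d 1 * g 1 = w 2 * f 0 - w 0 * f 2 := by
    rw [hg]; simp; field_simp [hd 1]
  have g2 : d 2 * g 2 = w 0 * f 1 - w 1 * f 0 := by
    rw [hg]; simp; field_simp [hd 2]
  have hgw : bf d g w = 0 := by
    unfold bf
    rw [Fin.sum_univ_three, g0, g1, g2]
    ring
  have hgf : bf d g f = 0 := by
    unfold bf
    rw [Fin.sum_univ_three, g0, g1, g2]
    ring
  have hgg : d 0 * d 1 * d 2 * bf d g g = -1 := by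
    have h1 : d 0 * d 1 * d 2 * bf d g g = bf d w w * bf d f f - bf d w f ^ 2 := by
      unfold bf
      simp only [Fin.sum_univ_three]
      have : d 0 * d 1 * d 2 * (d 0 * g 0 * g 0 + d 1 * g 1 * g 1 + d 2 * g 2 * g 2) =
        d 1 * d 2 * (d 0 * g 0) ^ 2 + d 0 * d 2 * (d 1 * g 1) ^ 2 + d 0 * d 1 * (d 2 * g 2) ^ 2 := by
        ring
      rw [this, g0, g1, g2]
      ring
    rw [h1, hww, hff, hwf]
    ring
  have symm : ∀ x y : Fin 3 → ℚ_[ℓ], bf d x y = bf d y x := by
    intro x y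
    unfold bf
    refine Finset.sum_congr rfl fun i _ => by ring
  have hq0 : bf d g g ≠ 0 := by
    intro h0
    rw [h0, mul_zero] at hgg
    exact one_ne_zero (neg_eq_zero.1 hgg.symm)
  set q := bf d g g with hq
  -- choose `t` with `2 t = s`, `s q` of odd valuation
  obtain ⟨s, hs0, hsq⟩ : ∃ s : ℚ_[ℓ], s ≠ 0 ∧ Odd (Padic.valuation (s * q)) := by
    rcases Int.even_or_odd (Padic.valuation q) with he | ho
    · refine ⟨(ℓ : ℚ_[ℓ]), pne, ?_⟩
      rw [Padic.valuation_mul pne hq0, Padic.valuation_p]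
      exact odd_one.add_even he
    · refine ⟨1, one_ne_zero, ?_⟩
      rwa [one_mul]
  have comb : ∀ a a' : ℚ_[ℓ], bf d (fun i => a * w i + f i) (fun i => a' * w i + f i) = a + a' := by
    intro a a'
    have : bf d (fun i => a * w i + f i) (fun i => a' * w i + f i) =
      a * a' * bf d w w + (a + a') * bf d w f + bf d f f := by
      unfold bf
      rw [Finset.mul_sum, Finset.mul_sum, ← Finset.sum_add_distrib, ← Finset.sum_add_distrib]
      refine Finset.sum_congr rfl fun i _ => by ring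
    rw [this, hww, hwf, hff]
    ring
  have comb2 : ∀ a : ℚ_[ℓ], bf d g (fun i => a * w i + f i) = 0 := by
    intro a
    have : bf d g (fun i => a * w i + f i) = a * bf d g w + bf d g f := by
      unfold bf
      rw [Finset.mul_sum, ← Finset.sum_add_distrib]
      refine Finset.sum_congr rfl fun i _ => by ring
    rw [this, hgw, hgf]
    ring
  have h2' : (2 : ℚ_[ℓ]) ≠ 0 := two_ne_zero
  obtain ⟨C, D, k1, k2, k3⟩ := gram d ![fun i => s / 2 * w i + f i, g, fun i => -(s / 2) * w i + f i]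
    ![s, q, -s] (by
      intro i
      fin_cases i
      · exact hs0
      · exact hq0
      · exact neg_ne_zero.2 hs0) (by
      intro i j
      fin_cases i <;> fin_cases j
      · change bf d (fun i => s / 2 * w i + f i) (fun i => s / 2 * w i + f i) = _
        rw [comb]; simp
      · change bf d (fun i => s / 2 * w i + f i) g = _
        rw [symm, comb2]; simp
      · change bf d (fun i => s / 2 * w i + f i) (fun i => -(s / 2) * w i + f i) = _
        rw [comb]; simp
      · change bf d g (fun i => s / 2 * w i + f i) = _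
        rw [comb2]; simp
      · change bf d g g = _
        rw [← hq]; simp
      · change bf d g (fun i => -(s / 2) * w i + f i) = _
        rw [comb2]; simp
      · change bf d (fun i => -(s / 2) * w i + f i) (fun i => s / 2 * w i + f i) = _
        rw [comb]; simp
      · change bf d (fun i => -(s / 2) * w i + f i) g = _
        rw [symm, comb2]; simp
      · change bf d (fun i => -(s / 2) * w i + f i) (fun i => -(s / 2) * w i + f i) = _
        rw [comb]; simp; ring)
  refine ⟨C, D, ![s, q, -s], k1, k2, ?_, k3, hsq⟩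
  intro i
  fin_cases i
  · exact hs0
  · exact hq0
  · exact neg_ne_zero.2 hs0

theorem norm_unit (x : ℚ_[ℓ]) (hx : x ≠ 0) :
    ‖x * (ℓ : ℚ_[ℓ]) ^ (-(Padic.valuation x))‖ = 1 := by
  rw [norm_mul, norm_zpow, Padic.norm_p, Padic.norm_eq_zpow_neg_valuation hx]
  have h0 : ((ℓ : ℝ)) ≠ 0 := by
    have := hp.out.ne_zero
    exact_mod_cast this
  rw [_root_.inv_zpow, ← _root_.zpow_neg, ← zpow_add₀ h0]
  simp

theorem t (hISO3 : Pool.Agent.Q282.OI.S_ISO3) : Pool.Agent.Y142.ZI.S_TERN := by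
  intro ℓ hp h2 d hd
  by_cases h01 : Odd (Padic.valuation (d 0 * d 1))
  · exact case1 d hd 1 h01
  by_cases h02 : Odd (Padic.valuation (d 0 * d 2))
  · exact case1 d hd (Equiv.swap 1 2) (by
      have e0 : (Equiv.swap (1 : Fin 3) 2) 0 = 0 := by decide
      have e1 : (Equiv.swap (1 : Fin 3) 2) 1 = 2 := by decide
      rw [e0, e1]; exact h02)
  rw [Int.not_odd_iff_even, Padic.valuation_mul (hd 0) (hd 1)] at h01
  rw [Int.not_odd_iff_even, Padic.valuation_mul (hd 0) (hd 2)] at h02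
  obtain ⟨b1, hb1⟩ := h01
  obtain ⟨b2, hb2⟩ := h02
  -- `val (d i) = val (d 0) + 2 b i`
  obtain ⟨b, hb⟩ : ∃ b : Fin 3 → ℤ, ∀ i, Padic.valuation (d i) = Padic.valuation (d 0) + 2 * b i := by
    refine ⟨![0, b1 - Padic.valuation (d 0), b2 - Padic.valuation (d 0)], ?_⟩
    intro i
    fin_cases i
    · simp
    · simp; omega
    · simp; omega
  obtain ⟨x, hx0, hx⟩ := hISO3 ℓ h2 (fun i => d i * (ℓ : ℚ_[ℓ]) ^ (-(Padic.valuation (d i))))
    (fun i => norm_unit (d i) (hd i))
  refine case2 h2 d hd (fun i => (ℓ : ℚ_[ℓ]) ^ (-(b i)) * x i) ?_ ?_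
  · intro h0
    apply hx0
    funext i
    have := congrFun h0 i
    exact (mul_eq_zero.1 this).resolve_left (zpow_ne_zero _ pne)
  · have h3 := congrArg (fun z => (ℓ : ℚ_[ℓ]) ^ (Padic.valuation (d 0)) * z) hx
    simp only [mul_zero, Finset.mul_sum] at h3
    rw [← h3]
    refine Finset.sum_congr rfl fun i _ => ?_
    have h4 : (ℓ : ℚ_[ℓ]) ^ (-(Padic.valuation (d i))) =
      (ℓ : ℚ_[ℓ]) ^ (-(Padic.valuation (d 0))) * ((ℓ : ℚ_[ℓ]) ^ (-(b i))) ^ 2 := by
      rw [hb i, ← zpow_natCast, ← _root_.zpow_mul, ← zpow_add₀ pne]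
      congr 1
      push_cast
      ring
    rw [h4]
    have h5 : (ℓ : ℚ_[ℓ]) ^ (Padic.valuation (d 0)) * (ℓ : ℚ_[ℓ]) ^ (-(Padic.valuation (d 0))) = 1 := by
      rw [← zpow_add₀ pne]; simp
    linear_combination (-(d i * ((ℓ : ℚ_[ℓ]) ^ (-(b i))) ^ 2 * x i ^ 2)) * h5

end Pool.Agent.Q278.OI.TERN
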